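import Pool.Agent.Run7.h260.VX.X10

/-!
# Piece P11 (helper711): the expansion at a point, the lattice shifted
-/

set_option autoImplicit false
set_option linter.all false

namespace Run7.h711.VU

open Filter Topology Metric Function Finset
open Pool.Agent.W719.AX (UX EXY)
open Run7.h260.VC Run7.h260.VX
open scoped Real

section gen
variable {ι : Type} [Fintype ι] [DecidableEq ι]

/-- translation of the base point -/
lemma EXn_trans {R r : ℝ} {Q : (ι → ℂ) → ℂ} {f A : ℕ → (ι → ℂ) → ℂ} (h : EXn R Q f A)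
    {x₁ : ι → ℂ} (hr : 0 < r) (h1 : ‖x₁‖ + r ≤ R) :
    EXn r (fun y => Q (x₁ + y)) (fun N y => f N (x₁ + y)) (fun k y => A k (x₁ + y)) := by
  have hmem : ∀ y ∈ ball (0 : ι → ℂ) r, x₁ + y ∈ ball (0 : ι → ℂ) R := by
    intro y hy
    rw [mem_ball_zero_iff] at hy ⊢
    exact (norm_add_le _ _).trans_lt (by linarith)
  refine ⟨hr, ?_, ?_, ?_, ?_⟩
  · intro x hx
    have h2 : AnalyticAt ℂ (fun y : ι → ℂ => x₁ + y) x := analyticAt_const.add analyticAt_id
    exact AnalyticAt.fun_comp (h.an _ (hmem x hx)) h2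
  · exact ux_comp h.ux (fun y => x₁ + y) hmem
  · filter_upwards [h.fd] with N hN x hx i
    have e : ∀ w : ℂ, x₁ + update x i w = update (x₁ + x) i (x₁ i + w) := by
      intro w
      funext j
      by_cases hj : j = i
      · subst hj; simp
      · simp [hj]
    have h2 : (fun w => f N (x₁ + update x i w)) = fun w => f N (update (x₁ + x) i (x₁ i + w)) := by
      funext w; rw [e w]
    rw [h2]
    refine (hN _ (hmem x hx) i).comp (f := fun w : ℂ => x₁ i + w) (by fun_prop) ?_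
    intro w hw
    rw [mem_ball_zero_iff] at hw ⊢
    have h3 := norm_le_pi_norm x₁ i
    exact (norm_add_le _ _).trans_lt (by linarith)
  · obtain ⟨c, hc, h2⟩ := h.nz
    exact ⟨c, hc, fun x hx => h2 _ (hmem x hx)⟩

lemma card_Cf (c : ℝ) (ρ : ι → ℝ) (T : Finset ι) (h : ∀ i, c + ρ i ≤ 1) {N : ℕ} (hN : 1 ≤ N) :
    (Cf c ρ T N).card ≤ N ^ Fintype.card ι := by
  unfold Cf
  rw [Fintype.card_piFinset]
  calc ∏ i, (if i ∈ T then Ws c (ρ i) N else {0}).card ≤ ∏ i : ι, N := by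
        refine Finset.prod_le_prod (fun i _ => Nat.zero_le _) fun i _ => ?_
        split_ifs
        · unfold Ws
          rw [Nat.card_Ico]
          have : ⌈(c + ρ i) * N⌉₊ ≤ N := by
            rw [Nat.ceil_le]
            have := h i
            have hN' : (0 : ℝ) ≤ N := Nat.cast_nonneg N
            nlinarith
          omega
        · simpa using hN
    _ = N ^ Fintype.card ι := by simp

lemma Cf_mono {ρ ρ' : ι → ℝ} {c : ℝ} {T : Finset ι} {N : ℕ} (h : ∀ i, ρ' i ≤ ρ i) (hN : 0 < N) :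
    Cf c ρ' T N ⊆ Cf c ρ T N := by
  intro d hd
  rw [Cf_mem] at hd ⊢
  intro i
  refine ⟨fun hi => ?_, (hd i).2⟩
  have h1 := (hd i).1 hi
  rw [ws_mem hN] at h1 ⊢
  have h2 := h i
  obtain ⟨h3, h4⟩ := h1
  exact ⟨by linarith, by linarith⟩

end gen

lemma bh1 {b : ℂ} (hb : ‖b‖ ≤ 1 / 1000000) : 2 * (1 / 3 + b) ∈ Bh := by
  unfold Bh
  rw [mem_ball, dist_eq_norm]
  have e : 2 * (1 / 3 + b) - 1 / 2 = 1 / 6 + 2 * b := by ring
  rw [e]
  have h1 := norm_add_le (1 / 6 : ℂ) (2 * b)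
  have h2 : ‖(1 / 6 : ℂ)‖ = 1 / 6 := by norm_num
  have h3 : ‖(2 * b : ℂ)‖ = 2 * ‖b‖ := by rw [norm_mul]; norm_num
  rw [h2, h3] at h1
  linarith

lemma bh2 {b w : ℂ} (hb : ‖b‖ ≤ 1 / 1000000) (hw : ‖w‖ ≤ 1 / 1000000) : 1 / 3 + b + w ∈ Bh := by
  unfold Bh
  rw [mem_ball, dist_eq_norm]
  have e : 1 / 3 + b + w - 1 / 2 = -(1 / 6) + (b + w) := by ring
  rw [e]
  have h1 := norm_add_le (-(1 / 6) : ℂ) (b + w)
  have h2 : ‖(-(1 / 6) : ℂ)‖ = 1 / 6 := by rw [norm_neg]; norm_num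
  have h3 := norm_add_le b w
  rw [h2] at h1
  linarith

lemma chi_pi {χ : ℂ} (hχ : ‖χ‖ ≤ 1 / 1000000) : ‖χ / (2 * π)‖ ≤ 1 / 1000000 := by
  have hpi := Real.pi_gt_three
  have h1 : ‖(2 * π : ℂ)‖ = 2 * π := by
    rw [norm_mul, Complex.norm_real, Real.norm_eq_abs, abs_of_pos Real.pi_pos]
    norm_num
  rw [norm_div, h1, div_le_iff₀ (by positivity)]
  have := norm_nonneg χ
  nlinarith

/-- the points -/
noncomputable def PT (n : ℕ) (b : ℂ) (N : ℕ) (d : Ix n → ℕ) (χ : ℂ) : Ix n → ℂ :=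
  fun i => if i ∈ Sv n then (d i : ℂ) / N - 1 / 3 + b else χ

lemma PT_eq (n : ℕ) (b χ₁ χ : ℂ) (b' : ℂ) (N : ℕ) (d : Ix n → ℕ) :
    Up n b χ₁ + pt (1 / 3) (Sv n) N d (Up n b' χ - Up n b χ₁) = PT n b N d χ := by
  funext i
  unfold PT pt
  by_cases hi : i ∈ Sv n
  · have hi' : i ≠ none := by unfold Sv at hi; simpa using hi
    simp only [Pi.add_apply, if_pos hi]
    unfold Up
    rw [if_neg hi']
    push_cast
    ring
  · have hi' : i = none := by unfold Sv at hi; simpa using hi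
    subst hi'
    simp only [Pi.add_apply, Pi.sub_apply, if_neg hi]
    unfold Up
    simp

/-- the statement for a given `n` -/
theorem main11 (n : ℕ) [NeZero n] {δ₆ ρ : ℝ} {χ₁ : ℂ} (hδ₆ : 0 < δ₆)
    (H6 : ∀ t : Ix n → ℝ, t none = 0 → (∀ j, |t j| ≤ δ₆) →
      (Qp n (Up n (bet χ₁) χ₁ + rc t)).re ≤ (Gv n χ₁).re - ∑ j, t j ^ 2)
    (H7 : ∀ᶠ χ : ℂ in 𝓝 χ₁, ‖bet χ‖ ≤ 1 / 1000000 ∧ Dd (bet χ) χ = 0)
    (hb : AnalyticAt ℂ bet χ₁) (hG : ContinuousAt (Gv n) χ₁) (hχ₁ : ‖χ₁‖ < 1 / 1000000)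
    (hρ : 0 < ρ) (hρδ : ρ ≤ δ₆) (hρ1 : ρ ≤ 1 / 1000000) :
    ∃ (R : ℝ) (A : ℕ → ℂ → ℂ), 0 < R ∧
    UX (fun (N : ℕ) (χ : ℂ) => Complex.exp (-(N * Gv n χ)) * (((N : ℂ)⁻¹) ^ n *
      ∑ d ∈ Cf (1 / 3) (fun _ => ρ) (Sv n) N, fX n N (PT n (bet χ₁) N d χ))) A (ball χ₁ R) ∧
    ∀ χ ∈ ball χ₁ R, A 0 χ ≠ 0 := by
  obtain ⟨b2, b3⟩ := H7.self_of_nhds
  obtain ⟨x₁, hx₁⟩ : ∃ x₁ : Ix n → ℂ, x₁ = Up n (bet χ₁) χ₁ := ⟨_, rfl⟩
  have hUpn : ∀ χ : ℂ, ‖χ‖ ≤ 1 / 1000000 → ‖bet χ‖ ≤ 1 / 1000000 →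
      ‖Up n (bet χ) χ‖ ≤ 1 / 1000000 := by
    intro χ h1 h2
    rw [pi_norm_le_iff_of_nonneg (by norm_num)]
    intro i
    unfold Up
    split_ifs
    · exact h1
    · exact h2
  have hx₁n : ‖x₁‖ ≤ 1 / 1000000 := by rw [hx₁]; exact hUpn χ₁ hχ₁.le b2
  obtain ⟨A₀, hA₀⟩ := fX_ex n
  have hE := EXn_trans hA₀ (x₁ := x₁) (r := 1 / 1000000) (by norm_num) (by linarith)
  have hQ0 : Qp n (x₁ + 0) = Gv n χ₁ := by rw [add_zero, hx₁]; rfl
  have hQm : Qm (Sv n) 1 (fun y => Qp n (x₁ + y)) := by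
    have hev : ∀ᶠ t : Ix n → ℝ in 𝓝 0, ∀ j, |t j| ≤ δ₆ := by
      filter_upwards [Metric.ball_mem_nhds (0 : Ix n → ℝ) hδ₆] with t ht j
      rw [mem_ball_zero_iff] at ht
      exact (norm_le_pi_norm t j).trans ht.le
    filter_upwards [hev] with t ht h0
    have h1 := H6 t (h0 none none_mem) ht
    show (Qp n (x₁ + rc t)).re ≤ (Qp n (x₁ + 0)).re - 1 * ∑ j, t j ^ 2
    rw [hQ0, one_mul, hx₁]
    exact h1
  have hQan : AnalyticAt ℂ (fun y => Qp n (x₁ + y)) 0 := hE.an 0 (mem_ball_self hE.pos)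
  have hcr : ∀ χ : ℂ, ‖χ‖ ≤ 1 / 1000000 → ‖bet χ‖ ≤ 1 / 1000000 → Dd (bet χ) χ = 0 →
      ∀ i ∈ Sv n, Dp (Qp n) i (Up n (bet χ) χ) = 0 := by
    intro χ h1 h2 h3 i hi
    have hi' : i ≠ none := by unfold Sv at hi; simpa using hi
    have hd : DifferentiableAt ℂ (Qp n) (Up n (bet χ) χ) := by
      refine (Qp_anx ?_).differentiableAt
      rw [mem_ball_zero_iff]
      exact (hUpn χ h1 h2).trans_lt (by norm_num)
    have m2 := bh2 h2 (chi_pi h1)
    have m3 : 1 / 3 + bet χ - χ / (2 * π) ∈ Bh := by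
      rw [sub_eq_add_neg]
      exact bh2 h2 (by rw [norm_neg]; exact chi_pi h1)
    unfold Dp
    rw [fderiv_Up (bh1 h2) m2 m3 hd, h3]
    have : (Pi.single i (1 : ℂ) : Ix n → ℂ) none = 0 := by
      rw [Pi.single_eq_of_ne (Ne.symm hi')]
    rw [this]
    ring
  have hDt : ∀ (i : Ix n) (y : Ix n → ℂ), Dp (fun y => Qp n (x₁ + y)) i y = Dp (Qp n) i (x₁ + y) := by
    intro i y
    unfold Dp
    rw [fderiv_comp_add_left]
  obtain ⟨ρ', QT, Ψ, E⟩ := elimX (S := Sv n) (k := 1) one_pos hQm hQan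
    (fun i hi => by rw [hDt, add_zero, hx₁]; exact hcr χ₁ hχ₁.le b2 b3 i hi) hE (c := 1 / 3)
    (by norm_num) (ρ₀ := ρ) hρ (Sv n) (Finset.Subset.refl _)
  obtain ⟨R', A', E'⟩ := E.ex
  -- the smallest window
  obtain ⟨i₀, -, hi₀⟩ := Finset.exists_min_image Finset.univ ρ' ⟨none, Finset.mem_univ _⟩
  obtain ⟨m, hm⟩ : ∃ m : ℝ, m = ρ' i₀ := ⟨_, rfl⟩
  have hm0 : 0 < m := by rw [hm]; exact (E.hρ i₀).1
  have hmi : ∀ i, m ≤ ρ' i := fun i => by rw [hm]; exact hi₀ i (Finset.mem_univ _)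
  -- the map
  have hX : Tendsto (fun χ : ℂ => Up n (bet χ) χ - x₁) (𝓝 χ₁) (𝓝 0) := by
    have h1 : ContinuousAt (fun χ : ℂ => Up n (bet χ) χ) χ₁ := by
      rw [continuousAt_pi]
      intro j
      by_cases hj : j = none
      · subst hj
        have : (fun χ : ℂ => Up n (bet χ) χ none) = fun χ => χ := by funext χ; simp [Up]
        rw [this]
        exact continuousAt_id
      · have : (fun χ : ℂ => Up n (bet χ) χ j) = bet := by funext χ; simp [Up, hj]
        rw [this]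
        exact hb.continuousAt
    have h2 := h1.tendsto.sub_const x₁
    rw [← hx₁, sub_self] at h2
    exact h2
  -- continuity
  have huc : UniformContinuousOn (Qp n) (closedBall (0 : Ix n → ℂ) (1 / 450000)) :=
    (isCompact_closedBall _ _).uniformContinuousOn_of_continuous fun x hx =>
      (Qp_anx (closedBall_subset_ball (by norm_num) hx)).continuousAt.continuousWithinAt
  rw [Metric.uniformContinuousOn_iff] at huc
  obtain ⟨η, hη, huc⟩ := huc (m ^ 2 / 4) (by positivity)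
  have ev1 : ∀ᶠ χ : ℂ in 𝓝 χ₁, ‖χ‖ < 1 / 1000000 :=
    (continuous_norm.tendsto χ₁).eventually_lt_const hχ₁
  have ev2 : ∀ᶠ χ : ℂ in 𝓝 χ₁, Up n (bet χ) χ - x₁ ∈ ball (0 : Ix n → ℂ) R' :=
    hX.eventually (ball_mem_nhds 0 E'.pos)
  have ev3 : ∀ᶠ χ : ℂ in 𝓝 χ₁, dist (Gv n χ) (Gv n χ₁) < m ^ 2 / 4 :=
    Metric.tendsto_nhds.1 hG.tendsto _ (by positivity)
  have ev4 : ∀ᶠ χ : ℂ in 𝓝 χ₁, dist χ χ₁ < η := Metric.tendsto_nhds.1 tendsto_id _ hη
  obtain ⟨R, hR, hall⟩ := Metric.eventually_nhds_iff_ball.1 (ev1.and (ev2.and (ev3.and (ev4.and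
    (H7.and ((hX.eventually E.ev).and (hX.eventually E.uniq)))))))
  have hQT : ∀ χ ∈ ball χ₁ R, QT (Up n (bet χ) χ - x₁) = Gv n χ := by
    intro χ hχ
    obtain ⟨e1, e2, e3, e4, e5, e6, e7⟩ := hall χ hχ
    have hcrit : ∀ i ∈ Sv n, Dp (fun y => Qp n (x₁ + y)) i (Up n (bet χ) χ - x₁) = 0 := by
      intro i hi
      rw [hDt, add_sub_cancel]
      exact hcr χ e1.le e5.1 e5.2 i hi
    rw [e6.2.2.1, e7 hcrit]
    show Qp n (x₁ + (Up n (bet χ) χ - x₁)) = _
    rw [add_sub_cancel]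
    rfl
  refine ⟨R, fun k χ => A' k (Up n (bet χ) χ - x₁), hR, ?_, ?_⟩
  · -- small windows
    have hU1 : UX (fun (N : ℕ) (χ : ℂ) => Complex.exp (-(N * Gv n χ)) * (((N : ℂ)⁻¹) ^ n *
        ∑ d ∈ Cf (1 / 3) ρ' (Sv n) N, fX n N (PT n (bet χ₁) N d χ)))
        (fun k χ => A' k (Up n (bet χ) χ - x₁)) (ball χ₁ R) := by
      refine ux_congr (ux_comp E'.ux (fun χ : ℂ => Up n (bet χ) χ - x₁)
        fun χ hχ => (hall χ hχ).2.1) ?_
      filter_upwards [eventually_ge_atTop 1] with N hN χ hχ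
      have hN' : (0 : ℝ) < N := by exact_mod_cast hN
      have hsq : ((Real.sqrt N : ℝ) : ℂ) * ((Real.sqrt N : ℝ) : ℂ) = N := by
        rw [← Complex.ofReal_mul, Real.mul_self_sqrt hN'.le]; simp
      have h1 : ((Real.sqrt N : ℝ) : ℂ)⁻¹ ^ (2 * n) = ((N : ℂ)⁻¹) ^ n := by
        rw [pow_mul, sq, ← mul_inv, hsq]
      rw [hQT χ hχ, card_Sv, h1]
      congr 2
      unfold Run7.h260.VC.ST
      refine Finset.sum_congr rfl fun d _ => ?_
      rw [hx₁]
      beta_reduce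
      rw [PT_eq]
    -- large windows
    obtain ⟨C, hC, hbd⟩ := ux_bd hA₀.ux
    refine ux_small hU1 (κ := m ^ 2 / 2) (C := C) (m := Fintype.card (Ix n)) (by positivity) hC.le ?_
    filter_upwards [hbd, eventually_ge_atTop 1] with N hbd hN χ hχ
    obtain ⟨e1, e2, e3, e4, e5, e6, e7⟩ := hall χ hχ
    have hN' : (0 : ℝ) < N := by exact_mod_cast hN
    have hN1 : (1 : ℝ) ≤ N := by exact_mod_cast hN
    have hsub : Cf (1 / 3) ρ' (Sv n) N ⊆ Cf (1 / 3) (fun _ => ρ) (Sv n) N :=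
      Cf_mono (fun i => (E.hρ i).2.le) (by omega)
    have hterm : ∀ d ∈ Cf (1 / 3) (fun _ => ρ) (Sv n) N \ Cf (1 / 3) ρ' (Sv n) N,
        ‖Complex.exp (-(N * Gv n χ)) * fX n N (PT n (bet χ₁) N d χ)‖ ≤
          C * Real.exp (-(m ^ 2 / 2 * N)) := by
      intro d hd
      rw [Finset.mem_sdiff] at hd
      obtain ⟨hd1, hd2⟩ := hd
      rw [Cf_mem] at hd1 hd2
      -- the real coordinates
      obtain ⟨t, ht⟩ : ∃ t : Ix n → ℝ, t = fun i => if i ∈ Sv n then (d i : ℝ) / N - 1 / 3 else 0 :=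
        ⟨_, rfl⟩
      have ht0 : t none = 0 := by rw [ht]; simp only; rw [if_neg none_mem]
      have htρ : ∀ j, |t j| ≤ ρ := by
        intro j
        rw [ht]
        simp only
        split_ifs with hj
        · have h1 := (hd1 j).1 hj
          rw [ws_mem (by omega)] at h1
          rw [abs_le]
          obtain ⟨h2, h3⟩ := h1
          exact ⟨by linarith, by linarith⟩
        · rw [abs_zero]; exact hρ.le
      have htm : m ^ 2 ≤ ∑ j, t j ^ 2 := by
        have h1 : ∃ i ∈ Sv n, d i ∉ Ws (1 / 3) (ρ' i) N := by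
          by_contra hcon
          push Not at hcon
          exact hd2 fun i => ⟨fun hi => hcon i hi, (hd1 i).2⟩
        obtain ⟨i, hi, h1⟩ := h1
        have h2 : m ^ 2 ≤ t i ^ 2 := by
          have h3 : m ≤ |t i| := by
            rw [ht]
            simp only
            rw [if_pos hi]
            refine (hmi i).trans ?_
            rw [ws_mem (by omega)] at h1
            rw [le_abs]
            by_contra hcon
            push Not at hcon
            exact h1 ⟨by linarith [hcon.2], by linarith [hcon.1]⟩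
          rw [← sq_abs (t i)]
          exact pow_le_pow_left₀ hm0.le h3 2
        exact h2.trans (Finset.single_le_sum (f := fun j => t j ^ 2) (fun j _ => sq_nonneg _)
          (Finset.mem_univ i))
      have hP6 := H6 t ht0 fun j => (htρ j).trans hρδ
      -- the two points
      have hn1 : ‖Up n (bet χ₁) χ₁ + rc t‖ ≤ 1 / 450000 := by
        have h1 := norm_add_le (Up n (bet χ₁) χ₁) (rc t)
        have h2 : ‖rc t‖ ≤ ρ := by
          rw [pi_norm_le_iff_of_nonneg hρ.le]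
          intro j
          unfold rc
          rw [Complex.norm_real]
          exact htρ j
        have h3 := hUpn χ₁ hχ₁.le b2
        linarith
      have hPT : ∀ i, PT n (bet χ₁) N d χ i = if i ∈ Sv n then (bet χ₁ + t i) else χ := by
        intro i
        unfold PT
        split_ifs with hi
        · rw [ht]
          simp only
          rw [if_pos hi]
          push_cast
          ring
        · rfl
      have hn2 : ‖PT n (bet χ₁) N d χ‖ ≤ 1 / 450000 := by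
        rw [pi_norm_le_iff_of_nonneg (by norm_num)]
        intro i
        rw [hPT]
        split_ifs with hi
        · have h1 := norm_add_le (bet χ₁) (t i : ℂ)
          rw [Complex.norm_real, Real.norm_eq_abs] at h1
          have := htρ i
          linarith
        · linarith
      have hdist : dist (PT n (bet χ₁) N d χ) (Up n (bet χ₁) χ₁ + rc t) < η := by
        rw [dist_pi_lt_iff hη]
        intro i
        rw [hPT]
        by_cases hi : i ∈ Sv n
        · have hi' : i ≠ none := by unfold Sv at hi; simpa using hi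
          rw [if_pos hi]
          have : (Up n (bet χ₁) χ₁ + rc t) i = bet χ₁ + t i := by simp [Up, rc, hi']
          rw [this, dist_self]
          exact hη
        · have hi' : i = none := by unfold Sv at hi; simpa using hi
          subst hi'
          rw [if_neg hi]
          have : (Up n (bet χ₁) χ₁ + rc t) none = χ₁ := by simp [Up, rc, ht0]
          rw [this]
          exact e4
      have h1 := huc _ (mem_closedBall_zero_iff.2 hn2) _ (mem_closedBall_zero_iff.2 hn1) hdist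
      rw [dist_eq_norm] at h1 e3
      have h2 := (Complex.abs_re_le_norm _).trans_lt h1
      have h3 := (Complex.abs_re_le_norm _).trans_lt e3
      rw [Complex.sub_re, abs_lt] at h2 h3
      have h4 : (Qp n (PT n (bet χ₁) N d χ)).re - (Gv n χ).re ≤ -(m ^ 2 / 2) := by
        linarith [h2.2, h3.1]
      have h5 := hbd (PT n (bet χ₁) N d χ) (by
        rw [mem_ball_zero_iff]; exact hn2.trans_lt (by norm_num))
      have h6 : Complex.exp (-(N * Gv n χ)) * fX n N (PT n (bet χ₁) N d χ) =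
          Complex.exp (N * (Qp n (PT n (bet χ₁) N d χ) - Gv n χ)) *
            (Complex.exp (-(N * Qp n (PT n (bet χ₁) N d χ))) * fX n N (PT n (bet χ₁) N d χ)) := by
        rw [← mul_assoc, ← Complex.exp_add]
        congr 2
        ring
      rw [h6, norm_mul, Complex.norm_exp, mul_comm C]
      refine mul_le_mul ?_ h5 (norm_nonneg _) (Real.exp_pos _).le
      refine Real.exp_le_exp.2 ?_
      have h7 : ((N : ℂ) * (Qp n (PT n (bet χ₁) N d χ) - Gv n χ)).re =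
          N * ((Qp n (PT n (bet χ₁) N d χ)).re - (Gv n χ).re) := by
        rw [← Complex.sub_re, ← Complex.ofReal_natCast, Complex.re_ofReal_mul]
      rw [h7]
      nlinarith
    have hsum : Complex.exp (-(N * Gv n χ)) * (((N : ℂ)⁻¹) ^ n *
          ∑ d ∈ Cf (1 / 3) (fun _ => ρ) (Sv n) N, fX n N (PT n (bet χ₁) N d χ)) -
        Complex.exp (-(N * Gv n χ)) * (((N : ℂ)⁻¹) ^ n *
          ∑ d ∈ Cf (1 / 3) ρ' (Sv n) N, fX n N (PT n (bet χ₁) N d χ)) =
        ((N : ℂ)⁻¹) ^ n * ∑ d ∈ Cf (1 / 3) (fun _ => ρ) (Sv n) N \ Cf (1 / 3) ρ' (Sv n) N,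
          (Complex.exp (-(N * Gv n χ)) * fX n N (PT n (bet χ₁) N d χ)) := by
      rw [← Finset.sum_sdiff hsub, ← Finset.mul_sum]
      ring
    rw [hsum, norm_mul]
    have hinv : ‖((N : ℂ)⁻¹) ^ n‖ ≤ 1 := by
      rw [norm_pow, norm_inv, Complex.norm_natCast]
      exact pow_le_one₀ (by positivity) (inv_le_one_of_one_le₀ hN1)
    have hsum2 : ‖∑ d ∈ Cf (1 / 3) (fun _ => ρ) (Sv n) N \ Cf (1 / 3) ρ' (Sv n) N,
        (Complex.exp (-(N * Gv n χ)) * fX n N (PT n (bet χ₁) N d χ))‖ ≤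
        C * N ^ Fintype.card (Ix n) * Real.exp (-(m ^ 2 / 2 * N)) := by
      refine (norm_sum_le_of_le _ hterm).trans ?_
      rw [Finset.sum_const, nsmul_eq_mul]
      have hc1 : ((Cf (1 / 3) (fun _ => ρ) (Sv n) N \ Cf (1 / 3) ρ' (Sv n) N).card : ℝ) ≤
          (N : ℝ) ^ Fintype.card (Ix n) := by
        have h1 := (Finset.card_le_card (Finset.sdiff_subset
          (s := Cf (1 / 3) (fun _ => ρ) (Sv n) N) (t := Cf (1 / 3) ρ' (Sv n) N))).trans
          (card_Cf (1 / 3) (fun _ => ρ) (Sv n) (fun _ => by linarith) hN)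
        exact_mod_cast h1
      have hp : 0 ≤ C * Real.exp (-(m ^ 2 / 2 * N)) := by positivity
      calc ((Cf (1 / 3) (fun _ => ρ) (Sv n) N \ Cf (1 / 3) ρ' (Sv n) N).card : ℝ) *
            (C * Real.exp (-(m ^ 2 / 2 * N))) ≤
            (N : ℝ) ^ Fintype.card (Ix n) * (C * Real.exp (-(m ^ 2 / 2 * N))) :=
              mul_le_mul_of_nonneg_right hc1 hp
        _ = _ := by ring
    calc _ ≤ 1 * (C * N ^ Fintype.card (Ix n) * Real.exp (-(m ^ 2 / 2 * N))) :=
          mul_le_mul hinv hsum2 (norm_nonneg _) zero_le_one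
      _ = _ := one_mul _
  · obtain ⟨c₁, hc₁, hnz⟩ := E'.nz
    intro χ hχ h0
    have := hnz _ (hall χ hχ).2.1
    simp only at h0
    rw [h0, norm_zero] at this
    linarith

end Run7.h711.VU
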