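import Pool.Agent.Run7.h260.VU.Iface
import Pool.Agent.Run7.h711.VU.P11a

/-!
# Piece P11 (helper711): the expansion at a point, the lattice shifted by `bet χ₁`
-/

set_option autoImplicit false
set_option linter.all false

namespace Run7.h711.VU

open Filter Topology Metric Function Finset
open Pool.Agent.W719.AX (UX EXY)
open Run7.h260.VC Run7.h260.VX Run7.h260.VU
open scoped Real

theorem t_P11 : S_P11 := by
  intro h6 h7
  obtain ⟨δ₆, hδ₆, hδ₆', H6⟩ := h6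
  obtain ⟨hn, δ₇, C₇, hδ₇, hδ₇', hC₇, H7⟩ := h7
  obtain ⟨δ, hδd⟩ : ∃ δ : ℝ, δ = min δ₆ (δ₇ / 2) := ⟨_, rfl⟩
  have hδ : 0 < δ := by rw [hδd]; exact lt_min hδ₆ (half_pos hδ₇)
  have d6 : δ ≤ δ₆ := by rw [hδd]; exact min_le_left _ _
  have d7 : δ ≤ δ₇ / 2 := by rw [hδd]; exact min_le_right _ _
  refine ⟨δ, hδ, fun n _ ρ hρ hρδ χ₁ hχ₁ => ?_⟩
  have h1 := H7 χ₁ (by linarith)
  have hev : ∀ᶠ χ : ℂ in 𝓝 χ₁, ‖χ‖ < δ₇ :=
    (continuous_norm.tendsto χ₁).eventually_lt_const (by linarith)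
  refine main11 n hδ₆ (H6 n χ₁ (hχ₁.trans d6)) ?_ h1.2.2.2.1 ?_ (by linarith) hρ (by linarith)
    (by linarith)
  · filter_upwards [hev] with χ hχ
    have h := H7 χ hχ.le
    exact ⟨h.2.1, h.2.2.1⟩
  · have e : Gv n = fun χ => (n : ℂ) * Gv 1 χ := funext (hn n)
    rw [e]
    exact continuousAt_const.mul h1.2.2.2.2.2.1.continuousAt

end Run7.h711.VU
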