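import Pool.Agent.Run7.h260.VU.Iface

/-!
# Piece P9 (helper711): `NearD n` with a neighbourhood independent of `n`
-/

set_option autoImplicit false
set_option linter.all false

namespace Run7.h711.VU

open Filter Topology Metric Function Finset
open Run7.h260.VC Run7.h260.VX Run7.h260.VU
open scoped Real

theorem t_P9 : S_P9 := by
  intro h7
  obtain ⟨hn, δ, C, hδ, hδ1, hC, hall⟩ := h7
  have hb : ∀ᶠ χ : ℂ in 𝓝 0, ‖χ‖ ≤ δ := by
    filter_upwards [Metric.ball_mem_nhds (0 : ℂ) hδ] with χ hχ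
    rw [mem_ball_zero_iff] at hχ
    exact hχ.le
  filter_upwards [nearD 1, hb] with χ h1 hχ
  intro n _
  obtain ⟨c1, c2, c3, c4, c5, c6, c7, c8⟩ := hall χ hχ
  have hpi := Real.pi_pos
  have hpiC : (π : ℂ) ≠ 0 := by exact_mod_cast hpi.ne'
  have hGn : Gv n = fun χ => (n : ℂ) * Gv 1 χ := funext (hn n)
  refine ⟨h1.shp, h1.pos, h1.pos', h1.an, h1.anu, ?_, ?_⟩
  · intro m hcrit
    have hd : deriv (Gv n) χ = n * (-(1 / π) * (ls (1 / 3 + bet χ + χ / (2 * π)) -
        ls (1 / 3 + bet χ - χ / (2 * π)))) := by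
      rw [hGn]
      exact (c8.const_mul (n : ℂ)).deriv
    have e1 : ls (1 / 3 + bet χ + χ / (2 * π)) - ls (1 / 3 + bet χ - χ / (2 * π)) = 2 * fu χ := by
      have h2 : ls (fb χ) - ls (fc χ) = 2 * fu χ := by
        have h3 := h1.shp.ub
        have h4 := h1.shp.uc
        linear_combination h3 - h4
      exact h2
    rw [hd, e1] at hcrit
    field_simp at hcrit
    linear_combination -hcrit
  · rw [hn n χ, h1.hG]
    push_cast
    ring

end Run7.h711.VU
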